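import Mathlib
import Pool.Agent.Lib.MP_cccab4_an.G08

/-!
# MP_cccab4_an : quasisymmetric cohopficity of Loewner boundaries of hyperbolic groups

The semigroup form for boundaries of hyperbolic groups; taking for `S` the semigroup of all
quasisymmetric embeddings of the boundary it says: if the boundary is Loewner and all
quasisymmetric self-homeomorphisms of it are quasi-Möbius with one distortion function (the group is
quasi-isometrically rigid), then the boundary is quasisymmetrically cohopfian.
-/

open Filter Topology

universe u

open scoped NNReal in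
/-- Let `Γ` be a hyperbolic group whose boundary, with a visual metric, is quasisymmetrically
equivalent to a Loewner space.  Let `S` be a semigroup (under composition) of quasisymmetric
embeddings of the boundary into itself which contains the action of `Γ`, and suppose that all
quasisymmetric self-homeomorphisms of the boundary which are uniform limits of elements of `S` are
quasi-Möbius with one distortion function `θ`.  Then every element of `S` is surjective. -/
theorem Pool.Agent.Results.MP_cccab4_an.LoewnerCohopfian.result :
    ∀ (Γ : Type u) [Group Γ] (T : Set Γ) (hT : QSCoh.IsHypGroup T)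
      [MetricSpace (QSCoh.Bdry T)], QSCoh.IsVisual T → QSCoh.QSLoewner (QSCoh.Bdry T) →
      ∀ S : Set (QSCoh.Bdry T → QSCoh.Bdry T), (∀ f ∈ S, QSCoh.IsQSEmb f) →
      (∀ f ∈ S, ∀ g ∈ S, f ∘ g ∈ S) → (∀ g : Γ, QSCoh.act hT.gen g ∈ S) →
      (∃ θ : ℝ≥0 ≃ₜ ℝ≥0, ∀ φ : QSCoh.Bdry T ≃ₜ QSCoh.Bdry T, QSCoh.IsQSEmb φ →
        (∃ F : ℕ → QSCoh.Bdry T → QSCoh.Bdry T, (∀ j, F j ∈ S) ∧ TendstoUniformly F φ atTop) →
        QSCoh.IsQMob θ φ) →
      ∀ f ∈ S, Function.Surjective f := by
  intro Γ _ T hT _ hv hL S hS hcomp hact ⟨θ, hR⟩
  exact QSCoh.group_semigroup hT hv hL S hS hcomp hact θ hR
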