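import Mathlib
import Pool.Agent.Lib.MP_cccab4_an.NM.H3

/-!
# MP_cccab4_an : embeddings which are not onto distort cross-ratios at the scale of every hole of the image

Let `Γ` be a hyperbolic group, `X` its boundary with a metric for which `Γ` acts by Möbius maps, and let
`X` be quasisymmetrically equivalent to a Loewner space. For every `θ` there is `ε > 0` such that every
`θ`-quasi-Möbius embedding `f : X → X` distorts a cross-ratio `≤ 1/ε` by more than `ε`

1. at the scale of every hole of the image (small compared with the image), and
2. at every point of the frontier of the image, in every ball.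

In particular embeddings which are nearly Möbius at small scales near one frontier point are onto.

Sketch of the proof. Otherwise there are, for all `ε`, embeddings with a hole at whose scale they distort the
cross-ratios by at most `ε`. Normalise them on both sides by elements of `Γ`. The normalised maps are
`θ`-quasi-Möbius and equicontinuous, their images miss balls of a fixed radius, and a limit is an
embedding preserving cross-ratios whose image misses a ball. But embeddings preserving cross-ratios are onto
by the semigroup theorem (see `LoewnerCohopfian`).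
-/

set_option autoImplicit false

open Set

universe u

open scoped NNReal

namespace Pool.Agent.Results.MP_cccab4_an.SmallScaleDistortion

/-- The homeomorphism `e` from `X` to the boundary carries the action of the group to an action on `X`
by maps preserving the cross-ratios of any four distinct points. -/
def MobiusAction {Γ : Type u} [Group Γ] {T : Set Γ} (hT : QSCoh.IsHypGroup T)
    [MetricSpace (QSCoh.Bdry T)] {X : Type u} [MetricSpace X] (e : X ≃ₜ QSCoh.Bdry T) : Prop :=
  ∀ (g : Γ) (a b c d : X), a ≠ b → a ≠ c → a ≠ d → b ≠ c → b ≠ d → c ≠ d →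
    QSCoh.crn (e.symm (QSCoh.act hT.gen g (e a))) (e.symm (QSCoh.act hT.gen g (e b)))
      (e.symm (QSCoh.act hT.gen g (e c))) (e.symm (QSCoh.act hT.gen g (e d))) = QSCoh.crn a b c d

/-- There are four distinct points of `B` with cross-ratio `≤ 1/ε` whose cross-ratio differs from that
of their images by more than `ε`. -/
def Distorts {X : Type u} [MetricSpace X] (f : X → X) (ε : ℝ) (B : Set X) : Prop :=
  ∃ a ∈ B, ∃ b ∈ B, ∃ c ∈ B, ∃ d ∈ B, a ≠ b ∧ a ≠ c ∧ a ≠ d ∧ b ≠ c ∧ b ≠ d ∧ c ≠ d ∧
    (QSCoh.crn a b c d : ℝ) ≤ 1 / ε ∧
    ε < |(QSCoh.crn (f a) (f b) (f c) (f d) : ℝ) - QSCoh.crn a b c d|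

/-- Let `Γ` be a hyperbolic group and `X` its boundary with any metric inducing the topology of the
boundary (the topology is given by a visual metric) such that `Γ` acts on `X` by Möbius maps and `X` is
quasisymmetrically equivalent to a Loewner space. For every `θ` there is `ε > 0` such that for every
quasisymmetric, `θ`-quasi-Möbius embedding `f : X → X` :

(1) if `f x` is a point of the image nearest to a point `y` outside the image, `f a` is at the same
distance `s` from `f x` as `y`, and `s ≤ ε d(f x, f w)`, then `f` distorts, by more than `ε`, a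
cross-ratio of points `u` with `d(x,u) d(a,w) ≤ (1/ε) d(x,a) d(u,w)`;

(2) for every point `z` whose image is in the frontier of the image, `f` distorts a cross-ratio by more
than `ε` in every ball about `z`. -/
theorem result (Γ : Type u) [Group Γ] (T : Set Γ) (hT : QSCoh.IsHypGroup T)
    [MetricSpace (QSCoh.Bdry T)] (hv : QSCoh.IsVisual T) (X : Type u) [MetricSpace X]
    (e : X ≃ₜ QSCoh.Bdry T) (hL : QSCoh.QSLoewner X) (hM : MobiusAction hT e) (θ : ℝ≥0 ≃ₜ ℝ≥0) :
    ∃ ε : ℝ, 0 < ε ∧ ∀ f : X → X, QSCoh.IsQSEmb f → QSCoh.IsQMob θ f →
      (∀ x a w y : X, y ∉ range f → (∀ u, dist (f x) y ≤ dist (f u) y) →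
        dist (f x) (f a) = dist (f x) y → dist (f x) y ≤ ε * dist (f x) (f w) →
        Distorts f ε {u | ε * (dist x u * dist a w) ≤ dist x a * dist u w}) ∧
      (∀ z : X, f z ∉ interior (range f) → ∀ r : ℝ, 0 < r → Distorts f ε (Metric.ball z r)) := by
  obtain ⟨ε, hε, h⟩ := QSCoh.group_holes hT hv e hL hM θ
  exact ⟨ε, hε, fun f hf hm =>
    ⟨fun x a w y hy hlow hfa hfw => QSCoh.dis_crn ((h f hf hm).1 x a w y hy hlow hfa hfw),
      fun z hz r hr => QSCoh.dis_crn ((h f hf hm).2 z hz r hr)⟩⟩

end Pool.Agent.Results.MP_cccab4_an.SmallScaleDistortion
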