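import Mathlib
import Pool.Agent.Lib.MP_cccab4_an.TN.TNG

/-!
# MP_cccab4_an : quasisymmetric embeddings with tangent maps in a uniformly quasi-Möbius group are onto

Let `Γ` be a hyperbolic group whose boundary `X` is quasisymmetrically equivalent to a `Q`-Loewner space `Z`, and
`H` a closed group of homeomorphisms of `X`, quasi-Möbius with one distortion function, which contains `Γ` (for
example all Möbius maps). Let `f : X → X` be a quasisymmetric embedding whose homeomorphic tangent maps lie in `H`
at almost every point (for the Hausdorff `Q`-measure of `Z`). Then `f` is onto.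

Sketch of the proof. Tangent maps satisfy a chain rule: a homeomorphic tangent map of `f₁ ∘ f₂` at `x` is the
composition of homeomorphic tangent maps of `f₂` at `x` and of `f₁` at `f₂ x`. Quasisymmetric embeddings of Loewner
spaces satisfy Lusin's condition (N). So the embeddings as in the theorem form a semigroup which contains `Γ`. The
proof of the semigroup theorem (see `LoewnerCohopfian`) uses the rigidity only for the tangent maps of the
elements of the semigroup at almost all points of density of the image.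
-/

set_option autoImplicit false

open Filter Topology MeasureTheory

universe u

open scoped NNReal

namespace Pool.Agent.Results.MP_cccab4_an.TangentMaps

/-- `φ` is a tangent map of `f` at `x`: the uniform limit of `g_j ∘ f ∘ h_j⁻¹` for sequences `g_j, h_j` of
elements of the group such that `h_j x → a`, `h_j y → b` for all `y ≠ x`, `a ≠ b`. -/
def IsTangentMap {Γ : Type u} [Group Γ] {T : Set Γ} (hT : QSCoh.IsHypGroup T) [MetricSpace (QSCoh.Bdry T)]
    (f : QSCoh.Bdry T → QSCoh.Bdry T) (x : QSCoh.Bdry T) (φ : QSCoh.Bdry T → QSCoh.Bdry T) : Prop :=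
  ∃ (g h : ℕ → Γ) (a b : QSCoh.Bdry T), a ≠ b ∧
    Tendsto (fun j => QSCoh.act hT.gen (h j) x) atTop (𝓝 a) ∧
    (∀ y, y ≠ x → Tendsto (fun j => QSCoh.act hT.gen (h j) y) atTop (𝓝 b)) ∧
    TendstoUniformly (fun j => QSCoh.act hT.gen (g j) ∘ f ∘ QSCoh.act hT.gen (h j)⁻¹) φ atTop

/-- Let `Γ` be a hyperbolic group whose boundary, with a visual metric, is quasisymmetrically
equivalent, by `e`, to a `Q`-Loewner space `Z`. Let `H` be a group of homeomorphisms of the boundary which contains
the action of `Γ`, is quasi-Möbius with one distortion function and contains all homeomorphisms which are uniform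
limits of sequences in `H`. Let `f` be a quasisymmetric embedding of the boundary into itself such that for almost
every `z` in `Z` all homeomorphic tangent maps of `f` at `e z` are in `H`. Then `f` is onto. -/
theorem result (Γ : Type u) [Group Γ] (T : Set Γ) (hT : QSCoh.IsHypGroup T)
    [MetricSpace (QSCoh.Bdry T)] (hv : QSCoh.IsVisual T)
    (Z : Type u) [MetricSpace Z] [MeasurableSpace Z] [BorelSpace Z] (Q : ℝ) (hL : QSCoh.IsLoewner Q Z)
    (e : Z ≃ₜ QSCoh.Bdry T) (he : QSCoh.IsQSEmb e)
    (H : Subgroup (QSCoh.Bdry T ≃ₜ QSCoh.Bdry T))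
    (hG : ∀ g : Γ, ∃ φ ∈ H, ∀ ξ, φ ξ = QSCoh.act hT.gen g ξ)
    (hq : ∃ θ : ℝ≥0 ≃ₜ ℝ≥0, ∀ φ ∈ H, QSCoh.IsQMob θ φ)
    (hc : ∀ φ : QSCoh.Bdry T ≃ₜ QSCoh.Bdry T, (∃ F : ℕ → QSCoh.Bdry T ≃ₜ QSCoh.Bdry T, (∀ j, F j ∈ H) ∧
      TendstoUniformly (fun j => (F j : QSCoh.Bdry T → QSCoh.Bdry T)) φ atTop) → φ ∈ H)
    (f : QSCoh.Bdry T → QSCoh.Bdry T) (hf : QSCoh.IsQSEmb f)
    (ht : ∀ᵐ z ∂(μH[Q] : Measure Z), ∀ φ : QSCoh.Bdry T ≃ₜ QSCoh.Bdry T, IsTangentMap hT f (e z) φ → φ ∈ H) :
    Function.Surjective f := by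
  obtain ⟨θ, hθ⟩ := hq
  exact QSCoh.group_tangentN hT hv e he hL H hG hθ hc hf ht

end Pool.Agent.Results.MP_cccab4_an.TangentMaps
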